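import Mathlib

/-!
# Small rational solutions of unit-and-addition systems

Every tuple of complex numbers `x` can be replaced by a tuple of rationals `a i / b` with
`|a i|, b ≤ 2 ^ (n - 1)` such that all the equations `x i = 1` and `x i + x j = x k` are preserved.

Idea: the determinant of an `N × N` matrix whose rows are differences `p - q` of nonnegative vectors
with `∑ p ≤ 2` and `∑ q ≤ 1` is at most `2 ^ N` in absolute value. This is proved by induction: the
first row may be taken to be `2 e_i - e_k`; adding half of the `i`-th column to the `k`-th one turns it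
into `2 e_i` and does not leave the class of matrices.
-/

set_option autoImplicit false

namespace Pool.Agent.L0h61.Known.SmallSolutions

open Matrix

/-- Differences `p - q` of nonnegative vectors with `∑ p ≤ 2`, `∑ q ≤ 1`. -/
def Row {ι : Type*} [Fintype ι] (r : ι → ℝ) : Prop :=
  ∃ p q : ι → ℝ, (∀ i, 0 ≤ p i) ∧ (∀ i, 0 ≤ q i) ∧ ∑ i, p i ≤ 2 ∧ ∑ i, q i ≤ 1 ∧
    ∀ i, r i = p i - q i

theorem sum_succAbove_le {N : ℕ} (p : Fin (N + 1) → ℝ) (i : Fin (N + 1)) (h : 0 ≤ p i) :
    ∑ j, p (i.succAbove j) ≤ ∑ j, p j := by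
  rw [Fin.sum_univ_succAbove p i]
  linarith

theorem Row.delete {N : ℕ} {r : Fin (N + 1) → ℝ} (h : Row r) (i : Fin (N + 1)) :
    Row (fun j => r (i.succAbove j)) := by
  obtain ⟨p, q, hp, hq, h1, h2, h3⟩ := h
  exact ⟨fun j => p (i.succAbove j), fun j => q (i.succAbove j), fun j => hp _, fun j => hq _,
    (sum_succAbove_le p i (hp i)).trans h1, (sum_succAbove_le q i (hq i)).trans h2, fun j => h3 _⟩

/-- half of the `i`-th entry is added to the `k`-th entry and then the `i`-th entry is deleted -/
theorem Row.merge {N : ℕ} {r : Fin (N + 1) → ℝ} (h : Row r) {i k : Fin (N + 1)} (hik : k ≠ i) :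
    Row (fun j => Function.update r k (r k + (1 / 2 : ℝ) * r i) (i.succAbove j)) := by
  obtain ⟨p, q, hp, hq, h1, h2, h3⟩ := h
  have key : ∀ f : Fin (N + 1) → ℝ, (∀ j, 0 ≤ f j) →
      ∑ j, Function.update f k (f k + (1 / 2 : ℝ) * f i) (i.succAbove j) ≤ ∑ j, f j := by
    intro f hf
    have e := Fin.sum_univ_succAbove (Function.update f k (f k + (1 / 2 : ℝ) * f i)) i
    rw [Function.update_of_ne hik.symm] at e
    have e2 : ∑ j, Function.update f k (f k + (1 / 2 : ℝ) * f i) j
        = ∑ j, f j + (1 / 2 : ℝ) * f i := by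
      rw [Finset.sum_update_of_mem (Finset.mem_univ k),
        ← Finset.sum_erase_add _ _ (Finset.mem_univ k), Finset.sdiff_singleton_eq_erase]
      ring
    have := hf i
    linarith
  refine ⟨fun j => Function.update p k (p k + (1 / 2 : ℝ) * p i) (i.succAbove j),
    fun j => Function.update q k (q k + (1 / 2 : ℝ) * q i) (i.succAbove j), fun j => ?_, fun j => ?_,
    (key p hp).trans h1, (key q hq).trans h2, fun j => ?_⟩
  · beta_reduce
    by_cases hj : i.succAbove j = k
    · rw [hj, Function.update_self]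
      have := hp k; have := hp i; positivity
    · rw [Function.update_of_ne hj]; exact hp _
  · beta_reduce
    by_cases hj : i.succAbove j = k
    · rw [hj, Function.update_self]
      have := hq k; have := hq i; positivity
    · rw [Function.update_of_ne hj]; exact hq _
  · beta_reduce
    by_cases hj : i.succAbove j = k
    · rw [hj, Function.update_self, Function.update_self, Function.update_self, h3, h3]
      ring
    · rw [Function.update_of_ne hj, Function.update_of_ne hj, Function.update_of_ne hj, h3]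

/-- the numerical inequality for the expansion along a row -/
theorem upper {ι : Type*} [Fintype ι] [Nonempty ι] {F p q : ι → ℝ} {B : ℝ} (hB : 0 ≤ B)
    (hp : ∀ i, 0 ≤ p i) (hq : ∀ i, 0 ≤ q i) (h1 : ∑ i, p i ≤ 2) (h2 : ∑ i, q i ≤ 1)
    (hF : ∀ i, |F i| ≤ B) (hF2 : ∀ i k, i ≠ k → 2 * F i - F k ≤ 2 * B) :
    ∑ i, (p i - q i) * F i ≤ 2 * B := by
  obtain ⟨i, -, hi⟩ := Finset.exists_max_image Finset.univ F Finset.univ_nonempty
  obtain ⟨k, -, hk⟩ := Finset.exists_min_image Finset.univ F Finset.univ_nonempty
  have e1 : ∑ j, p j * F j ≤ 2 * max (F i) 0 := by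
    calc ∑ j, p j * F j ≤ ∑ j, p j * max (F i) 0 := by
          refine Finset.sum_le_sum fun j _ => mul_le_mul_of_nonneg_left ?_ (hp j)
          exact (hi j (Finset.mem_univ j)).trans (le_max_left _ _)
      _ = (∑ j, p j) * max (F i) 0 := by rw [Finset.sum_mul]
      _ ≤ 2 * max (F i) 0 := mul_le_mul_of_nonneg_right h1 (le_max_right _ _)
  have e2 : -∑ j, q j * F j ≤ max (-F k) 0 := by
    calc -∑ j, q j * F j = ∑ j, q j * (-F j) := by
          rw [← Finset.sum_neg_distrib]; exact Finset.sum_congr rfl fun j _ => by ring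
      _ ≤ ∑ j, q j * max (-F k) 0 := by
          refine Finset.sum_le_sum fun j _ => mul_le_mul_of_nonneg_left ?_ (hq j)
          exact (neg_le_neg (hk j (Finset.mem_univ j))).trans (le_max_left _ _)
      _ = (∑ j, q j) * max (-F k) 0 := by rw [Finset.sum_mul]
      _ ≤ 1 * max (-F k) 0 := mul_le_mul_of_nonneg_right h2 (le_max_right _ _)
      _ = _ := one_mul _
  have e3 : ∑ j, (p j - q j) * F j = ∑ j, p j * F j + -∑ j, q j * F j := by
    rw [← Finset.sum_neg_distrib, ← Finset.sum_add_distrib]
    exact Finset.sum_congr rfl fun j _ => by ring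
  have a1 := abs_le.1 (hF i)
  have a2 := abs_le.1 (hF k)
  rw [e3]
  refine (add_le_add e1 e2).trans ?_
  rcases le_total (F i) 0 with c1 | c1
  · rw [max_eq_right c1]
    rcases le_total (-F k) 0 with c2 | c2
    · rw [max_eq_right c2]; linarith
    · rw [max_eq_left c2]; linarith
  · rw [max_eq_left c1]
    rcases le_total (-F k) 0 with c2 | c2
    · rw [max_eq_right c2]; linarith
    · rw [max_eq_left c2]
      by_cases hik : i = k
      · subst hik; linarith
      · linarith [hF2 i k hik]

/-- **The determinant bound.** -/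
theorem det_bound : ∀ (N : ℕ) (A : Matrix (Fin N) (Fin N) ℝ), (∀ i, Row (A i)) → |A.det| ≤ 2 ^ N := by
  intro N
  induction N with
  | zero => intro A _; simp
  | succ N ih =>
    intro A hA
    -- the cofactors of the first row
    set F : Fin (N + 1) → ℝ := fun j => (-1) ^ (j : ℕ) * (A.submatrix Fin.succ j.succAbove).det
      with hFdef
    have hexp : ∀ w : Fin (N + 1) → ℝ, (A.updateRow 0 w).det = ∑ j, w j * F j := by
      intro w
      rw [Matrix.det_succ_row_zero]
      refine Finset.sum_congr rfl fun j _ => ?_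
      have : (A.updateRow 0 w).submatrix Fin.succ j.succAbove = A.submatrix Fin.succ j.succAbove := by
        ext a b
        simp [Matrix.updateRow_apply, Fin.succ_ne_zero]
      rw [this, Matrix.updateRow_self, hFdef]
      ring
    have hF : ∀ j, |F j| ≤ 2 ^ N := by
      intro j
      rw [hFdef]
      simp only [abs_mul, abs_pow, abs_neg, abs_one, one_pow, one_mul]
      exact ih _ fun i => (hA i.succ).delete j
    have hF2 : ∀ i k, i ≠ k → |2 * F i - F k| ≤ 2 * 2 ^ N := by
      intro i k hik
      set w : Fin (N + 1) → ℝ := Pi.single i 2 - Pi.single k 1 with hw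
      have e1 : (A.updateRow 0 w).det = 2 * F i - F k := by
        rw [hexp, hw]
        simp only [Pi.sub_apply, sub_mul, Finset.sum_sub_distrib, Pi.single_apply, ite_mul, zero_mul,
          one_mul, Finset.sum_ite_eq', Finset.mem_univ, if_true]
      rw [← e1, ← Matrix.det_updateCol_add_smul_self _ hik.symm (1 / 2 : ℝ)]
      set M : Matrix (Fin (N + 1)) (Fin (N + 1)) ℝ := (A.updateRow 0 w).updateCol k
        fun l => (A.updateRow 0 w) l k + (1 / 2 : ℝ) • (A.updateRow 0 w) l i with hM
      have hM0 : ∀ j, M 0 j = if j = i then 2 else 0 := by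
        intro j
        rw [hM]
        by_cases hjk : j = k
        · subst hjk
          simp [Matrix.updateRow_apply, hw, hik, hik.symm]
        · by_cases hji : j = i
          · subst hji
            simp [Matrix.updateRow_apply, hw, hik]
          · simp [Matrix.updateRow_apply, hw, hjk, hji, Pi.single_apply]
      rw [Matrix.det_succ_row_zero]
      simp only [hM0, mul_ite, mul_zero, ite_mul, zero_mul, Finset.sum_ite_eq', Finset.mem_univ,
        if_true]
      rw [abs_mul, abs_mul, abs_pow, abs_neg, abs_one, one_pow, one_mul,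
        abs_of_pos (by norm_num : (0 : ℝ) < 2)]
      refine mul_le_mul_of_nonneg_left (ih _ fun l => ?_) (by norm_num)
      have := (hA l.succ).merge hik.symm
      convert this using 1
      ext j
      simp only [hM, Matrix.submatrix_apply, Matrix.updateCol_apply, Matrix.updateRow_apply,
        Fin.succ_ne_zero, if_false, smul_eq_mul, Function.update_apply]
    obtain ⟨p, q, hp, hq, h1, h2, h3⟩ := hA 0
    have hdet : A.det = ∑ j, (p j - q j) * F j := by
      have := hexp (A 0)
      rw [Matrix.updateRow_eq_self] at this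
      rw [this]
      exact Finset.sum_congr rfl fun j _ => by rw [h3]
    rw [hdet, pow_succ', abs_le]
    constructor
    · have := upper (F := fun j => - F j) (B := 2 ^ N) (by positivity) hp hq h1 h2
        (fun i => by rw [abs_neg]; exact hF i)
        (fun i k hik => by linarith [(abs_le.1 (hF2 i k hik)).1])
      simp only [mul_neg, Finset.sum_neg_distrib] at this
      linarith
    · exact upper (by positivity) hp hq h1 h2 hF (fun i k hik => (abs_le.1 (hF2 i k hik)).2)

/-! ### The linear algebra -/

/-- the integer vectors that occur as rows: `e_i + e_j - e_k` and `e_i - e_m` -/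
def tri {n : ℕ} (i j k : Fin n) : Fin n → ℤ := Pi.single i 1 + Pi.single j 1 - Pi.single k 1

theorem row_tri {n : ℕ} (i j k : Fin n) : Row fun l => ((tri i j k l : ℤ) : ℝ) := by
  refine ⟨fun l => (Pi.single i 1 + Pi.single j 1 : Fin n → ℝ) l, fun l => (Pi.single k 1 : Fin n → ℝ) l,
    fun l => ?_, fun l => ?_, ?_, ?_, fun l => ?_⟩
  · simp only [Pi.add_apply, Pi.single_apply]; split_ifs <;> norm_num
  · simp only [Pi.single_apply]; split_ifs <;> norm_num
  · simp only [Pi.add_apply, Finset.sum_add_distrib, Pi.single_apply, Finset.sum_ite_eq', Finset.mem_univ,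
      if_true]
    norm_num
  · simp only [Pi.single_apply, Finset.sum_ite_eq', Finset.mem_univ, if_true]
    norm_num
  · simp only [tri, Pi.add_apply, Pi.sub_apply, Pi.single_apply]
    push_cast
    rfl

theorem row_sub {n : ℕ} (i m : Fin n) :
    Row fun l => (((Pi.single i 1 - Pi.single m 1 : Fin n → ℤ) l : ℤ) : ℝ) := by
  refine ⟨fun l => (Pi.single i 1 : Fin n → ℝ) l, fun l => (Pi.single m 1 : Fin n → ℝ) l,
    fun l => ?_, fun l => ?_, ?_, ?_, fun l => ?_⟩
  · simp only [Pi.single_apply]; split_ifs <;> norm_num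
  · simp only [Pi.single_apply]; split_ifs <;> norm_num
  · simp only [Pi.single_apply, Finset.sum_ite_eq', Finset.mem_univ, if_true]
    norm_num
  · simp only [Pi.single_apply, Finset.sum_ite_eq', Finset.mem_univ, if_true]
    norm_num
  · simp only [Pi.sub_apply, Pi.single_apply]
    push_cast
    rfl

theorem row_single {n : ℕ} (i : Fin n) : Row fun l => (((Pi.single i 1 : Fin n → ℤ) l : ℤ) : ℝ) := by
  refine ⟨fun l => (Pi.single i 1 : Fin n → ℝ) l, fun _ => 0, fun l => ?_, fun l => le_rfl, ?_, ?_,
    fun l => ?_⟩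
  · simp only [Pi.single_apply]; split_ifs <;> norm_num
  · simp only [Pi.single_apply, Finset.sum_ite_eq', Finset.mem_univ, if_true]
    norm_num
  · simp
  · simp only [Pi.single_apply]
    push_cast
    simp

/-- the vector with rational entries -/
def toQ {n : ℕ} (r : Fin n → ℤ) : Fin n → ℚ := fun l => (r l : ℚ)

/-- Let `R` be a set of integer rows of the class above whose rational span does not contain the
standard vector `e_m`. There are integers `a_l`, `|a_l| ≤ 2 ^ N`, with `a_m ≠ 0` and
`∑ w_l a_l = 0` for all `w` in `R`. -/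
theorem exists_kernel {N : ℕ} (R : Set (Fin (N + 1) → ℤ)) (hR : ∀ r ∈ R, Row fun l => ((r l : ℤ) : ℝ))
    (m : Fin (N + 1)) (hm : toQ (Pi.single m 1) ∉ Submodule.span ℚ (toQ '' R)) :
    ∃ a : Fin (N + 1) → ℤ, (∀ l, |a l| ≤ 2 ^ N) ∧ a m ≠ 0 ∧ ∀ w ∈ R, ∑ l, w l * a l = 0 := by
  classical
  obtain ⟨b1, hb1, hspan, hli⟩ := exists_linearIndependent ℚ (toQ '' R)
  set em : Fin (N + 1) → ℚ := toQ (Pi.single m 1) with hem
  have hmb : em ∉ Submodule.span ℚ b1 := by rwa [hspan]
  have hli1 : LinearIndepOn ℚ id b1 := hli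
  have hli2 : LinearIndepOn ℚ id (insert em b1) := hli1.insert (by simpa using hmb)
  set T : Set (Fin (N + 1) → ℚ) := insert em b1 ∪ Set.range fun i => toQ (Pi.single i 1) with hT
  obtain ⟨b2, hb2T, hb1b2, hTspan, hli3⟩ :=
    exists_linearIndepOn_extension (v := id) hli2 (show insert em b1 ⊆ T from Set.subset_union_left)
  simp only [Set.image_id] at hTspan
  have hemb2 : em ∈ b2 := hb1b2 (Set.mem_insert _ _)
  -- `b2` is a basis
  have htop : Submodule.span ℚ b2 = ⊤ := by
    rw [eq_top_iff]
    intro v _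
    have hv : v = ∑ i, v i • toQ (Pi.single i 1) := by
      ext l
      simp [toQ, Finset.sum_apply, Pi.single_apply]
    rw [hv]
    exact Submodule.sum_mem _ fun i _ => Submodule.smul_mem _ _
      (hTspan (Or.inr ⟨i, rfl⟩))
  have hli4 : LinearIndependent ℚ (fun x : b2 => (x : Fin (N + 1) → ℚ)) := hli3
  have hfin : b2.Finite := hli4.set_finite_of_isNoetherian
  have : Fintype b2 := hfin.fintype
  have hcard : Fintype.card b2 = N + 1 := by
    have hb : ⊤ ≤ Submodule.span ℚ (Set.range fun x : b2 => (x : Fin (N + 1) → ℚ)) := by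
      rw [Subtype.range_coe, htop]
    have := Module.finrank_eq_card_basis (Module.Basis.mk hli4 hb)
    rw [← this]
    simp
  have hcard3 : Nat.card (b2 \ {em} : Set (Fin (N + 1) → ℚ)) = N := by
    have h1 : (b2 \ {em}).ncard = b2.ncard - 1 := Set.ncard_sdiff_singleton_of_mem hemb2
    have h2 : b2.ncard = N + 1 := by
      rw [← Nat.card_coe_set_eq, Nat.card_eq_fintype_card, hcard]
    rw [Nat.card_coe_set_eq, h1, h2]
    rfl
  have : Finite (b2 \ {em} : Set (Fin (N + 1) → ℚ)) := (hfin.sdiff).to_subtype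
  let e : (b2 \ {em} : Set (Fin (N + 1) → ℚ)) ≃ Fin N := Finite.equivFinOfCardEq hcard3
  -- integer rows
  have hex : ∀ x : (b2 \ {em} : Set (Fin (N + 1) → ℚ)), ∃ r : Fin (N + 1) → ℤ,
      toQ r = (x : Fin (N + 1) → ℚ) ∧ Row fun l => ((r l : ℤ) : ℝ) := by
    rintro ⟨x, hx2, hxm⟩
    rcases hb2T hx2 with (h | h) | ⟨i, h⟩
    · exact absurd h hxm
    · obtain ⟨r, hr, rfl⟩ := hb1 h
      exact ⟨r, rfl, hR r hr⟩
    · exact ⟨Pi.single i 1, h, row_single i⟩
  choose rr hrr1 hrr2 using hex
  let r : Fin N → Fin (N + 1) → ℤ := fun i => rr (e.symm i)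
  let a : Fin (N + 1) → ℤ := fun l =>
    (-1) ^ (l : ℕ) * ((Matrix.of r).submatrix id l.succAbove).det
  have hdet : ∀ w : Fin (N + 1) → ℤ,
      (Matrix.of (Fin.cons w r : Fin (N + 1) → Fin (N + 1) → ℤ)).det = ∑ l, w l * a l := by
    intro w
    rw [Matrix.det_succ_row_zero]
    refine Finset.sum_congr rfl fun l _ => ?_
    have h1 : (Matrix.of (Fin.cons w r : Fin (N + 1) → Fin (N + 1) → ℤ)).submatrix Fin.succ l.succAbove
        = (Matrix.of r).submatrix id l.succAbove := by
      ext i j
      simp
    rw [h1]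
    simp only [Matrix.of_apply, Fin.cons_zero, a]
    ring
  refine ⟨a, fun l => ?_, ?_, fun w hw => ?_⟩
  · -- the bound
    have h1 := det_bound N (((Matrix.of r).submatrix id l.succAbove).map ((↑) : ℤ → ℝ)) (fun i => by
      have := (hrr2 (e.symm i)).delete l
      exact this)
    have h2 : (((Matrix.of r).submatrix id l.succAbove).map ((↑) : ℤ → ℝ)).det =
        ((((Matrix.of r).submatrix id l.succAbove).det : ℤ) : ℝ) := by
      exact (Int.castRingHom ℝ).map_det ((Matrix.of r).submatrix id l.succAbove) |>.symm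
    rw [h2] at h1
    have h3 : |a l| = |((Matrix.of r).submatrix id l.succAbove).det| := by
      simp only [a, abs_mul, abs_pow, abs_neg, abs_one, one_pow, one_mul]
    rw [h3]
    exact_mod_cast h1
  · -- nonvanishing
    have h0 := hdet (Pi.single m 1)
    have h1 : ∑ l, (Pi.single m 1 : Fin (N + 1) → ℤ) l * a l = a m := by
      simp [Pi.single_apply]
    rw [h1] at h0
    rw [← h0]
    intro hz
    -- the rational matrix has independent rows
    let f : Fin (N + 1) → b2 := Fin.cons ⟨em, hemb2⟩ fun i => ⟨(e.symm i : Fin (N + 1) → ℚ), (e.symm i).2.1⟩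
    have hf : Function.Injective f := by
      intro i j hij
      induction i using Fin.cases with
      | zero =>
        induction j using Fin.cases with
        | zero => rfl
        | succ j =>
          exfalso
          simp only [f, Fin.cons_zero, Fin.cons_succ, Subtype.mk.injEq] at hij
          exact (e.symm j).2.2 hij.symm
      | succ i =>
        induction j using Fin.cases with
        | zero =>
          exfalso
          simp only [f, Fin.cons_zero, Fin.cons_succ, Subtype.mk.injEq] at hij
          exact (e.symm i).2.2 hij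
        | succ j =>
          simp only [f, Fin.cons_succ, Subtype.mk.injEq] at hij
          have := e.symm.injective (Subtype.ext hij)
          rw [this]
    have hli5 := hli4.comp f hf
    have h2 : ((fun x : b2 => (x : Fin (N + 1) → ℚ)) ∘ f) =
        ((Matrix.of (Fin.cons (Pi.single m 1) r : Fin (N + 1) → Fin (N + 1) → ℤ)).map
          ((↑) : ℤ → ℚ)).row := by
      funext i
      induction i using Fin.cases with
      | zero => rfl
      | succ i => exact (hrr1 (e.symm i)).symm
    rw [h2] at hli5
    have h3 := (Matrix.linearIndependent_rows_iff_isUnit.1 hli5)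
    rw [Matrix.isUnit_iff_isUnit_det] at h3
    have h4 : ((Matrix.of (Fin.cons (Pi.single m 1) r : Fin (N + 1) → Fin (N + 1) → ℤ)).map
          ((↑) : ℤ → ℚ)).det = (((Matrix.of (Fin.cons (Pi.single m 1) r :
            Fin (N + 1) → Fin (N + 1) → ℤ)).det : ℤ) : ℚ) :=
      (Int.castRingHom ℚ).map_det _ |>.symm
    rw [h4, hz] at h3
    simp at h3
  · -- the relations of `R`
    have hzero : ∀ v ∈ Submodule.span ℚ (b2 \ {em}), ∑ l, v l * (a l : ℚ) = 0 := by
      intro v hv
      induction hv using Submodule.span_induction with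
      | mem v hv =>
        have h1 := hdet (r (e ⟨v, hv⟩))
        have h2 : (Matrix.of (Fin.cons (r (e ⟨v, hv⟩)) r : Fin (N + 1) → Fin (N + 1) → ℤ)).det = 0 := by
          refine Matrix.det_zero_of_row_eq (i := 0) (j := (e ⟨v, hv⟩).succ) (Fin.succ_ne_zero _).symm ?_
          ext j
          simp
        rw [h2] at h1
        have h3 : toQ (r (e ⟨v, hv⟩)) = v := by
          simp only [r, Equiv.symm_apply_apply, hrr1]
        rw [← h3]
        simp only [toQ]
        exact_mod_cast h1.symm
      | zero => simp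
      | add u v _ _ hu hv =>
        simp only [Pi.add_apply, add_mul, Finset.sum_add_distrib, hu, hv, add_zero]
      | smul c v _ hv =>
        simp only [Pi.smul_apply, smul_eq_mul, mul_assoc, ← Finset.mul_sum, hv, mul_zero]
    have hmem : toQ w ∈ Submodule.span ℚ (b2 \ {em}) := by
      have h1 : toQ w ∈ Submodule.span ℚ b1 := by
        rw [hspan]
        exact Submodule.subset_span ⟨w, hw, rfl⟩
      refine Submodule.span_mono ?_ h1
      intro x hx
      refine ⟨hb1b2 (Set.mem_insert_of_mem _ hx), ?_⟩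
      rintro rfl
      exact hmb (Submodule.subset_span hx)
    have h2 := hzero _ hmem
    simp only [toQ] at h2
    exact_mod_cast h2

/-- **Tyszka's conjecture on additive systems, with numerators and denominator.** For every `n` and
all complex numbers `x_1, …, x_n` there are integers `a_1, …, a_n` and `b`, `1 ≤ b ≤ 2 ^ (n - 1)`,
`|a_i| ≤ 2 ^ (n - 1)`, such that the rational numbers `y_i = a_i / b`, which lie in
`[-2 ^ (n - 1), 2 ^ (n - 1)]`, satisfy all the equations `x_i = 1` and `x_i + x_j = x_k` that the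
`x_i` satisfy. -/
theorem result (n : ℕ) (x : Fin n → ℂ) :
    ∃ (y : Fin n → ℚ), (∀ i, |y i| ≤ 2 ^ (n - 1)) ∧
      (∀ i, x i = 1 → y i = 1) ∧ (∀ i j k, x i + x j = x k → y i + y j = y k) ∧
      ∃ (a : Fin n → ℤ) (b : ℤ), 1 ≤ b ∧ b ≤ 2 ^ (n - 1) ∧
        ∀ i, |a i| ≤ 2 ^ (n - 1) ∧ y i = a i / b := by
  classical
  by_cases hone : ∃ m, x m = 1
  swap
  · refine ⟨0, fun i => ?_, fun i hi => absurd ⟨i, hi⟩ hone, fun i j k _ => by simp, 0, 1, le_rfl,
      one_le_pow₀ (by norm_num), fun i => ⟨?_, by simp⟩⟩
    · simp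
    · simp
  obtain ⟨m, hm⟩ := hone
  obtain ⟨N, rfl⟩ : ∃ N, n = N + 1 := ⟨n - 1, by have := m.2; omega⟩
  rw [Nat.add_sub_cancel]
  -- the rows
  set R : Set (Fin (N + 1) → ℤ) := {w | (∃ i j k, x i + x j = x k ∧ w = tri i j k) ∨
    ∃ i, x i = 1 ∧ w = Pi.single i 1 - Pi.single m 1} with hRdef
  have hR : ∀ r ∈ R, Row fun l => ((r l : ℤ) : ℝ) := by
    rintro r (⟨i, j, k, -, rfl⟩ | ⟨i, -, rfl⟩)
    · exact row_tri i j k
    · exact row_sub i m
  have hdelta : ∀ i : Fin (N + 1),
      ∑ l, (((if l = i then 1 else 0 : ℚ)) : ℂ) * x l = x i := by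
    intro i
    rw [Finset.sum_eq_single i]
    · simp
    · intro b _ hb
      simp [hb]
    · intro h
      exact absurd (Finset.mem_univ _) h
  have hspan : ∀ v ∈ Submodule.span ℚ (toQ '' R), ∑ l, (v l : ℂ) * x l = 0 := by
    intro v hv
    induction hv using Submodule.span_induction with
    | mem v hv =>
      obtain ⟨w, (⟨i, j, k, h, rfl⟩ | ⟨i, h, rfl⟩), rfl⟩ := hv
      · simp only [toQ, tri, Pi.add_apply, Pi.sub_apply, Pi.single_apply]
        push_cast
        simp only [add_mul, sub_mul, Finset.sum_add_distrib, Finset.sum_sub_distrib, hdelta]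
        rw [h, sub_self]
      · simp only [toQ, Pi.sub_apply, Pi.single_apply]
        push_cast
        simp only [sub_mul, Finset.sum_sub_distrib, hdelta]
        rw [h, hm, sub_self]
    | zero => simp
    | add u v _ _ hu hv =>
      simp only [Pi.add_apply, Rat.cast_add, add_mul, Finset.sum_add_distrib, hu, hv, add_zero]
    | smul c v _ hv =>
      simp only [Pi.smul_apply, smul_eq_mul, Rat.cast_mul, mul_assoc, ← Finset.mul_sum, hv, mul_zero]
  have hmspan : toQ (Pi.single m 1) ∉ Submodule.span ℚ (toQ '' R) := by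
    intro h
    have := hspan _ h
    simp only [toQ, Pi.single_apply] at this
    push_cast at this
    rw [hdelta, hm] at this
    exact one_ne_zero this
  obtain ⟨a, ha1, ha2, ha3⟩ := exists_kernel R hR m hmspan
  have hrel : ∀ i j k, x i + x j = x k → a i + a j = a k := by
    intro i j k h
    have := ha3 (tri i j k) (Or.inl ⟨i, j, k, h, rfl⟩)
    simp only [tri, Pi.add_apply, Pi.sub_apply, Pi.single_apply, add_mul, sub_mul, ite_mul, one_mul,
      zero_mul, Finset.sum_add_distrib, Finset.sum_sub_distrib, Finset.sum_ite_eq', Finset.mem_univ,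
      if_true] at this
    linarith
  have hunit : ∀ i, x i = 1 → a i = a m := by
    intro i h
    have := ha3 _ (Or.inr ⟨i, h, rfl⟩)
    simp only [Pi.sub_apply, Pi.single_apply, sub_mul, ite_mul, one_mul,
      zero_mul, Finset.sum_sub_distrib, Finset.sum_ite_eq', Finset.mem_univ,
      if_true] at this
    linarith
  -- normalise the sign
  obtain ⟨a', b, hb, ha1', hrel', hunit', hbm⟩ : ∃ (a' : Fin (N + 1) → ℤ) (b : ℤ), 1 ≤ b ∧
      (∀ l, |a' l| ≤ 2 ^ N) ∧ (∀ i j k, x i + x j = x k → a' i + a' j = a' k) ∧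
      (∀ i, x i = 1 → a' i = b) ∧ b = a' m := by
    rcases lt_or_gt_of_ne ha2 with h | h
    · refine ⟨fun l => - a l, - a m, by omega, fun l => by rw [abs_neg]; exact ha1 l,
        fun i j k h => by have := hrel i j k h; beta_reduce; omega,
        fun i h => by beta_reduce; rw [hunit i h], rfl⟩
    · exact ⟨a, a m, by omega, ha1, hrel, hunit, rfl⟩
  have hbpos : (1 : ℚ) ≤ b := by exact_mod_cast hb
  have hb0 : (b : ℚ) ≠ 0 := by positivity
  refine ⟨fun i => a' i / b, fun i => ?_, fun i h => ?_, fun i j k h => ?_, a', b, hb, ?_,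
    fun i => ⟨ha1' i, rfl⟩⟩
  · rw [abs_div, abs_of_pos (by linarith : (0 : ℚ) < b)]
    have h1 : |(a' i : ℚ)| ≤ 2 ^ N := by exact_mod_cast ha1' i
    refine (div_le_self (abs_nonneg _) hbpos).trans h1
  · beta_reduce
    rw [hunit' i h, div_self hb0]
  · beta_reduce
    rw [← add_div]
    congr 1
    exact_mod_cast hrel' i j k h
  · rw [hbm]
    exact (le_abs_self _).trans (ha1' m)

end Pool.Agent.L0h61.Known.SmallSolutions
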